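import Pool.Agent.H673.PR.Final

/-!
# Piercing all translates of two rectangles: lattices are optimal

`piT w₁ h₁ w₂ h₂` and `piL w₁ h₁ w₂ h₂` (file `Pool.Agent.H673.PR.Defs`) are the translative and the
lattice piercing density of the family of the two closed axis-parallel rectangles `w₁ × h₁` and
`w₂ × h₂`.  They are equal for all pairs of rectangles, except possibly if one of them is `A` times
as wide as the other, which is `B` times as high as the first, where `n < A, B < n + 1` and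
`A + B < 2 n + 1` for an integer `n ≥ 2`.

If `n < A, B < n + 1` and (`n = 1` or `A + B ≥ 2 n + 1`) both densities are
`1 / (w₂ h₁ (1 + (A - 1) (B - 1) / n))`.
-/

set_option autoImplicit false

namespace Pool.Agent.Results.MP_aad70b_co.PiercingTwoRectangles

open Pool.Agent.H673.PR

/-- The first rectangle is `A` times as wide as the second one, the second one is `B` times as high
as the first one, and `n < A, B < n + 1`, `A + B < 2 n + 1` for some integer `n ≥ 2`. -/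
def Unsettled (w₁ h₁ w₂ h₂ : ℝ) : Prop :=
  ∃ n : ℕ, 2 ≤ n ∧ n < w₁ / w₂ ∧ w₁ / w₂ < n + 1 ∧ n < h₂ / h₁ ∧ h₂ / h₁ < n + 1 ∧
    w₁ / w₂ + h₂ / h₁ < 2 * n + 1

theorem result (w₁ h₁ w₂ h₂ : ℝ) (hw₁ : 0 < w₁) (hh₁ : 0 < h₁) (hw₂ : 0 < w₂) (hh₂ : 0 < h₂) :
    (¬ Unsettled w₁ h₁ w₂ h₂ → ¬ Unsettled w₂ h₂ w₁ h₁ →
      piT w₁ h₁ w₂ h₂ = piL w₁ h₁ w₂ h₂) ∧
    (∀ n : ℕ, 1 ≤ n → n < w₁ / w₂ → w₁ / w₂ < n + 1 → n < h₂ / h₁ → h₂ / h₁ < n + 1 →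
      (n = 1 ∨ 2 * (n : ℝ) + 1 ≤ w₁ / w₂ + h₂ / h₁) →
      piT w₁ h₁ w₂ h₂ =
          ENNReal.ofReal (1 / (w₂ * h₁ * (1 + (w₁ / w₂ - 1) * (h₂ / h₁ - 1) / n))) ∧
        piL w₁ h₁ w₂ h₂ =
          ENNReal.ofReal (1 / (w₂ * h₁ * (1 + (w₁ / w₂ - 1) * (h₂ / h₁ - 1) / n)))) := by
  refine ⟨fun h h' => final_eq hw₁ hh₁ hw₂ hh₂ h h', fun n hn a1 a2 b1 b2 hc => ?_⟩
  exact final_val n hn hw₁ hh₁ hw₂ hh₂ ((lt_div_iff₀ hw₂).1 a1) ((div_lt_iff₀ hw₂).1 a2)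
    ((lt_div_iff₀ hh₁).1 b1) ((div_lt_iff₀ hh₁).1 b2) hc

end Pool.Agent.Results.MP_aad70b_co.PiercingTwoRectangles
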